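import Pool.Agent.Lib.MP_c5b475_co.NB.Surv

/-!
# NB/Clean: making all degrees at most one
-/

set_option autoImplicit false
set_option linter.unusedSectionVars false

namespace NB

open Finset

variable {V E : Type} [Fintype V] [DecidableEq V] [Fintype E] [DecidableEq E]

theorem prod_ge {A : Type} (s : Finset A) (c : A → ℝ) (h0 : ∀ a, 0 ≤ c a) (h1 : ∀ a, c a ≤ 1) :
    1 - ∑ a ∈ s, (1 - c a) ≤ ∏ a ∈ s, c a := by
  classical
  induction s using Finset.induction_on with
  | empty => simp
  | insert a s ha ih =>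
    rw [Finset.sum_insert ha, Finset.prod_insert ha]
    have h2 : 0 ≤ ∑ a ∈ s, (1 - c a) := Finset.sum_nonneg fun b _ => by linarith [h1 b]
    have h3 := mul_le_mul_of_nonneg_left ih (h0 a)
    have h4 := mul_nonneg (sub_nonneg.2 (h1 a)) h2
    nlinarith

theorem clean (vs : E → Finset V) {w : E → ℝ} {k : ℕ} (hw : ∀ e, 0 ≤ w e)
    (hk : ∀ e, (vs e).card ≤ k) (I : Finset V) :
    ∃ w' : E → ℝ, (∀ e, 0 ≤ w' e) ∧ (∀ e, w' e ≤ w e) ∧ (∀ v, dg vs w' v ≤ 1) ∧
      ∑ i ∈ I, (1 - dg vs w' i) ≤ ∑ i ∈ I, (1 - dg vs w i) + k * ∑ v, max (dg vs w v - 1) 0 := by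
  set c : V → ℝ := fun v => if dg vs w v ≤ 1 then 1 else 1 / dg vs w v with hc
  have hd0 : ∀ v, 0 ≤ dg vs w v := fun v => Finset.sum_nonneg fun e _ => hw e
  have hc0 : ∀ v, 0 ≤ c v := by
    intro v
    simp only [hc]
    split_ifs
    · norm_num
    · exact div_nonneg (by norm_num) (hd0 v)
  have hc1 : ∀ v, c v ≤ 1 := by
    intro v
    simp only [hc]
    split_ifs with h
    · exact le_rfl
    · have h1 : 1 < dg vs w v := not_le.1 h
      rw [div_le_one (by linarith)]
      exact h1.le
  have hcd : ∀ v, c v * dg vs w v ≤ 1 := by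
    intro v
    simp only [hc]
    split_ifs with h
    · linarith
    · have h1 : 1 < dg vs w v := not_le.1 h
      rw [one_div, inv_mul_cancel₀ (by linarith)]
  have hcm : ∀ v, (1 - c v) * dg vs w v = max (dg vs w v - 1) 0 := by
    intro v
    simp only [hc]
    split_ifs with h
    · rw [max_eq_right (by linarith)]; ring
    · have h1 : 1 < dg vs w v := not_le.1 h
      rw [max_eq_left (by linarith)]
      field_simp
  have hp : ∀ e, (∏ v ∈ vs e, c v) ≤ 1 := fun e =>
    Finset.prod_le_one (fun v _ => hc0 v) fun v _ => hc1 v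
  have hle : ∀ e, w e * ∏ v ∈ vs e, c v ≤ w e := fun e => by
    have := mul_le_mul_of_nonneg_left (hp e) (hw e)
    linarith
  refine ⟨fun e => w e * ∏ v ∈ vs e, c v, fun e => mul_nonneg (hw e)
    (Finset.prod_nonneg fun v _ => hc0 v), hle, fun v => ?_, ?_⟩
  · refine le_trans ?_ (hcd v)
    unfold dg
    rw [Finset.mul_sum]
    refine Finset.sum_le_sum fun e he => ?_
    rw [mul_comm (c v)]
    refine mul_le_mul_of_nonneg_left ?_ (hw e)
    have hv : v ∈ vs e := (Finset.mem_filter.1 he).2
    rw [← Finset.mul_prod_erase _ _ hv]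
    have := mul_le_mul_of_nonneg_left (Finset.prod_le_one (s := (vs e).erase v) (fun v _ => hc0 v)
      fun v _ => hc1 v) (hc0 v)
    linarith
  · have h1 : ∑ i ∈ I, dg vs w i - ∑ i ∈ I, dg vs (fun e => w e * ∏ v ∈ vs e, c v) i ≤
        k * ∑ v, max (dg vs w v - 1) 0 := by
      rw [sum_dg, sum_dg, ← Finset.sum_sub_distrib]
      calc ∑ e, (w e * ((vs e ∩ I).card : ℝ) - (w e * ∏ v ∈ vs e, c v) * ((vs e ∩ I).card : ℝ))
          ≤ ∑ e, (k : ℝ) * (w e * ∑ v ∈ vs e, (1 - c v)) := by
            refine Finset.sum_le_sum fun e _ => ?_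
            have h2 := prod_ge (vs e) c hc0 hc1
            have h3 : ((vs e ∩ I).card : ℝ) ≤ k := by
              exact_mod_cast (Finset.card_le_card Finset.inter_subset_left).trans (hk e)
            have h4 : 0 ≤ w e * (1 - ∏ v ∈ vs e, c v) := mul_nonneg (hw e) (by linarith [hp e])
            calc w e * ((vs e ∩ I).card : ℝ) - (w e * ∏ v ∈ vs e, c v) * ((vs e ∩ I).card : ℝ)
                = ((vs e ∩ I).card : ℝ) * (w e * (1 - ∏ v ∈ vs e, c v)) := by ring
              _ ≤ k * (w e * (1 - ∏ v ∈ vs e, c v)) := mul_le_mul_of_nonneg_right h3 h4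
              _ ≤ k * (w e * ∑ v ∈ vs e, (1 - c v)) :=
                  mul_le_mul_of_nonneg_left (mul_le_mul_of_nonneg_left (by linarith) (hw e))
                    (Nat.cast_nonneg _)
        _ = k * ∑ v, max (dg vs w v - 1) 0 := by
            rw [← Finset.mul_sum]
            congr 1
            calc ∑ e, w e * ∑ v ∈ vs e, (1 - c v)
                = ∑ e, ∑ v, (if v ∈ vs e then w e * (1 - c v) else 0) := by
                  refine Finset.sum_congr rfl fun e _ => ?_
                  rw [Finset.mul_sum, ← Finset.sum_filter]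
                  refine Finset.sum_congr ?_ fun _ _ => rfl
                  ext v
                  simp
              _ = ∑ v, ∑ e, (if v ∈ vs e then w e * (1 - c v) else 0) := Finset.sum_comm
              _ = ∑ v, max (dg vs w v - 1) 0 := by
                  refine Finset.sum_congr rfl fun v _ => ?_
                  rw [← hcm v, ← Finset.sum_filter]
                  unfold dg
                  rw [Finset.mul_sum]
                  exact Finset.sum_congr rfl fun e _ => by ring
    rw [Finset.sum_sub_distrib, Finset.sum_sub_distrib]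
    linarith

end NB
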