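import Pool.Agent.Lib.MP_c5b475_co.NB.Surv

/-!
# NB/Bite: the matching of one bite
-/

set_option autoImplicit false
set_option linter.unusedSectionVars false

namespace NB

open Finset

variable {V E : Type} [Fintype V] [DecidableEq V] [Fintype E] [DecidableEq E]

/-- the edge is chosen and no other edge which meets it is chosen -/
def Gd (vs : E → Finset V) (w : E → ℝ) (e : E) (ω : E ⊕ V → Bool) : Prop :=
  0 < w e ∧ ω (Sum.inl e) = true ∧ ∀ f, f ≠ e → ¬ Disjoint (vs f) (vs e) → ω (Sum.inl f) = false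

/-- covered by the matching of the bite -/
def Cv (vs : E → Finset V) (w : E → ℝ) (v : V) (ω : E ⊕ V → Bool) : Prop :=
  ∃ e, v ∈ vs e ∧ Gd vs w e ω

theorem Gd_disj {vs : E → Finset V} {w : E → ℝ} {e f : E} {ω : E ⊕ V → Bool}
    (he : Gd vs w e ω) (hf : Gd vs w f ω) (hef : e ≠ f) : Disjoint (vs e) (vs f) := by
  by_contra h
  have h1 := hf.2.2 e hef h
  rw [he.2.1] at h1
  exact Bool.false_ne_true h1.symm

theorem Cv_not_Sv {vs : E → Finset V} {w : E → ℝ} {v : V} {ω : E ⊕ V → Bool}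
    (h : Cv vs w v ω) : ¬ Sv vs {v} ω := by
  rintro hS
  obtain ⟨e, hv, he⟩ := h
  have h1 := hS (Sum.inl e) (Finset.inl_mem_disjSum.2 (mem_mt.2 ⟨v, Finset.mem_singleton_self v, hv⟩))
  rw [he.2.1] at h1
  exact Bool.false_ne_true h1.symm

theorem sum_Gd_le (vs : E → Finset V) (w : E → ℝ) (v : V) (ω : E ⊕ V → Bool) :
    ∑ e with v ∈ vs e, ind (Gd vs w e ω) ≤ ind (Cv vs w v ω) := by
  by_cases h : Cv vs w v ω
  · obtain ⟨e, hv, he⟩ := h
    rw [ind_pos ⟨e, hv, he⟩, Finset.sum_eq_single_of_mem e (Finset.mem_filter.2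
      ⟨Finset.mem_univ _, hv⟩)]
    · exact ind_le_one _
    · intro f hf hfe
      refine ind_neg fun hG => ?_
      have h1 := Gd_disj hG he hfe
      exact Finset.disjoint_left.1 h1 (Finset.mem_filter.1 hf).2 hv
  · rw [ind_neg h]
    refine (Finset.sum_eq_zero fun e he => ?_).le
    exact ind_neg fun hG => h ⟨e, (Finset.mem_filter.1 he).2, hG⟩

theorem one_sub_exp {x : ℝ} (hx : 0 ≤ x) : x * (1 - x) ≤ 1 - Real.exp (-x) := by
  have h1 := Real.add_one_le_exp x
  have h2 : Real.exp (-x) ≤ 1 / (1 + x) := by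
    rw [Real.exp_neg, ← one_div]
    exact one_div_le_one_div_of_le (by linarith) (by linarith)
  have h3 : 1 / (1 + x) ≤ 1 - x * (1 - x) := by
    rw [div_le_iff₀ (by linarith)]
    nlinarith [mul_nonneg hx (mul_nonneg hx hx)]
  linarith

theorem Ex_Gd {vs : E → Finset V} {w : E → ℝ} {ε : ℝ} {k : ℕ} (hε : 0 ≤ ε) (hε1 : ε ≤ 1)
    (hw : ∀ e, 0 ≤ w e) (hd : ∀ v, dg vs w v ≤ 1) (hk : ∀ e, (vs e).card ≤ k)
    {v : V} {e : E} (hv : v ∈ vs e) :
    ε * w e * (1 - (k + 1) * ε) ≤ Ex (qq vs w ε) (fun ω => ind (Gd vs w e ω)) := by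
  have hwe1 : w e ≤ 1 := by
    refine le_trans ?_ (hd v)
    unfold dg
    exact Finset.single_le_sum (f := w) (fun f _ => hw f)
      (Finset.mem_filter.2 ⟨Finset.mem_univ e, hv⟩)
  rcases (hw e).eq_or_lt with h0 | h0
  · rw [← h0, mul_zero, zero_mul]
    have := Ex_mono (qq_nonneg vs w ε) (qq_le_one hε hw hd) (f := fun _ => 0)
      (g := fun ω => ind (Gd vs w e ω)) fun ω => ind_nonneg _
    rwa [Ex_const] at this
  · have h1 : (fun ω => ind (Gd vs w e ω)) = fun ω : E ⊕ V → Bool =>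
        ind (ω (Sum.inl e) = true ∧ ∀ j ∈ ((mt vs (vs e)).erase e).disjSum (∅ : Finset V),
          ω j = false) := by
      funext ω
      refine ind_congr ⟨fun h => ⟨h.2.1, fun j hj => ?_⟩, fun h => ⟨h0, h.1, fun f hf hd => ?_⟩⟩
      · rcases Finset.mem_disjSum.1 hj with ⟨f, hf, rfl⟩ | ⟨u, hu, rfl⟩
        · exact h.2.2 f (Finset.ne_of_mem_erase hf)
            (Finset.mem_filter.1 (Finset.mem_of_mem_erase hf)).2
        · exact absurd hu (Finset.notMem_empty _)
      · exact h.2 _ (Finset.inl_mem_disjSum.2 (Finset.mem_erase.2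
          ⟨hf, Finset.mem_filter.2 ⟨Finset.mem_univ _, hd⟩⟩))
    rw [h1, Ex_on_off, Finset.prod_disjSum, Finset.prod_empty, mul_one]
    · show _ ≤ (1 - Real.exp (-(ε * w e))) * ∏ f ∈ (mt vs (vs e)).erase e, Real.exp (-(ε * w f))
      rw [← Real.exp_sum, Finset.sum_neg_distrib, ← Finset.mul_sum]
      have h2 : ∑ f ∈ (mt vs (vs e)).erase e, w f ≤ k := by
        calc ∑ f ∈ (mt vs (vs e)).erase e, w f ≤ ∑ f ∈ mt vs (vs e), w f :=
              Finset.sum_le_sum_of_subset_of_nonneg (Finset.erase_subset _ _) fun f _ _ => hw f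
          _ ≤ ∑ u ∈ vs e, dg vs w u := by
              rw [sum_mt, sum_dg]
              refine Finset.sum_le_sum fun f _ => mul_le_mul_of_nonneg_left ?_ (hw f)
              split_ifs with h
              · exact Nat.cast_nonneg _
              · exact_mod_cast Nat.one_le_iff_ne_zero.2 h
          _ ≤ ∑ _u ∈ vs e, (1 : ℝ) := Finset.sum_le_sum fun u _ => hd u
          _ = ((vs e).card : ℝ) := by simp
          _ ≤ k := by exact_mod_cast hk e
      have h3 : 1 - ε * k ≤ Real.exp (-(ε * ∑ f ∈ (mt vs (vs e)).erase e, w f)) := by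
        have h4 := Real.one_sub_le_exp_neg (ε * ∑ f ∈ (mt vs (vs e)).erase e, w f)
        have h5 := mul_le_mul_of_nonneg_left h2 hε
        linarith
      have h6 : ε * w e * (1 - ε) ≤ 1 - Real.exp (-(ε * w e)) := by
        refine le_trans ?_ (one_sub_exp (mul_nonneg hε (hw e)))
        refine mul_le_mul_of_nonneg_left ?_ (mul_nonneg hε (hw e))
        have := mul_le_mul_of_nonneg_left hwe1 hε
        linarith
      have h7 : 0 ≤ ε * w e * (1 - ε) :=
        mul_nonneg (mul_nonneg hε (hw e)) (by linarith)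
      have h8 : (0 : ℝ) < Real.exp (-(ε * ∑ f ∈ (mt vs (vs e)).erase e, w f)) := Real.exp_pos _
      calc ε * w e * (1 - (k + 1) * ε) ≤ ε * w e * (1 - ε) * (1 - ε * k) := by
            have h9 : 0 ≤ ε * w e := mul_nonneg hε (hw e)
            have h10 : (0 : ℝ) ≤ ε * (ε * k) :=
              mul_nonneg hε (mul_nonneg hε (Nat.cast_nonneg _))
            nlinarith [mul_nonneg h9 h10]
        _ ≤ ε * w e * (1 - ε) * Real.exp (-(ε * ∑ f ∈ (mt vs (vs e)).erase e, w f)) :=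
            mul_le_mul_of_nonneg_left h3 h7
        _ ≤ (1 - Real.exp (-(ε * w e))) *
            Real.exp (-(ε * ∑ f ∈ (mt vs (vs e)).erase e, w f)) :=
            mul_le_mul_of_nonneg_right h6 h8.le
    · intro h
      exact Finset.notMem_erase e _ (Finset.inl_mem_disjSum.1 h)

/-- probability that the vertex is hit but not matched -/
theorem Ex_lost {vs : E → Finset V} {w : E → ℝ} {ε : ℝ} {k : ℕ} (hε : 0 ≤ ε) (hε1 : ε ≤ 1)
    (hw : ∀ e, 0 ≤ w e) (hd : ∀ v, dg vs w v ≤ 1) (hk : ∀ e, (vs e).card ≤ k) (v : V) :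
    Ex (qq vs w ε) (fun ω => ind (¬ Sv vs {v} ω ∧ ¬ Cv vs w v ω)) ≤
      ε * (1 - dg vs w v) + (k + 1) * ε ^ 2 := by
  have h1 : ∀ ω, ind (¬ Sv vs {v} ω ∧ ¬ Cv vs w v ω) ≤
      (1 - ind (Sv vs {v} ω)) - ∑ e with v ∈ vs e, ind (Gd vs w e ω) := by
    intro ω
    have h2 := sum_Gd_le vs w v ω
    by_cases hS : Sv vs {v} ω
    · rw [ind_neg (fun h => h.1 hS), ind_pos hS]
      have hC : ¬ Cv vs w v ω := fun h => Cv_not_Sv h hS
      rw [ind_neg hC] at h2
      linarith
    · rw [ind_neg hS]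
      by_cases hC : Cv vs w v ω
      · rw [ind_neg (fun h => h.2 hC)]
        rw [ind_pos hC] at h2
        linarith
      · rw [ind_pos ⟨hS, hC⟩]
        rw [ind_neg hC] at h2
        linarith
  refine (Ex_mono (qq_nonneg vs w ε) (qq_le_one hε hw hd) h1).trans ?_
  rw [Ex_sub, Ex_sub, Ex_const, Ex_sum]
  have h2 : Ex (qq vs w ε) (fun ω => ind (Sv vs {v} ω)) = Real.exp (-ε) := pS_single vs w ε v
  rw [h2]
  have h3 : ε * (1 - (k + 1) * ε) * dg vs w v ≤
      ∑ e with v ∈ vs e, Ex (qq vs w ε) (fun ω => ind (Gd vs w e ω)) := by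
    unfold dg
    rw [Finset.mul_sum]
    refine Finset.sum_le_sum fun e he => ?_
    have := Ex_Gd hε hε1 hw hd hk (Finset.mem_filter.1 he).2
    linarith
  have h4 := Real.one_sub_le_exp_neg ε
  have h5 : (k + 1) * ε ^ 2 * dg vs w v ≤ (k + 1) * ε ^ 2 := by
    have : (0 : ℝ) ≤ (k + 1) * ε ^ 2 := by positivity
    have := mul_le_mul_of_nonneg_left (hd v) this
    linarith
  nlinarith

end NB
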