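import Pool.Agent.Lib.MP_c5b475_co.NB.Mom
import Pool.Agent.Lib.MP_c5b475_co.NB.Clean
import Pool.Agent.Lib.MP_c5b475_co.NB.Bite

/-!
# NB/Nib: the weighted nibble
-/

set_option autoImplicit false
set_option linter.unusedSectionVars false

namespace NB

open Finset

/-- number of vertices of `I` which are not covered -/
noncomputable def unc {V E : Type} (vs : E → Finset V) (I : Finset V) (M : Finset E) : ℝ :=
  ∑ i ∈ I, ind (∀ e ∈ M, i ∉ vs e)

section

variable {V E : Type} [Fintype V] [DecidableEq V] [Fintype E] [DecidableEq E]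

theorem XX_of_Sv {vs : E → Finset V} {w : E → ℝ} {ε : ℝ} {v : V} {ω : E ⊕ V → Bool}
    (h : Sv vs {v} ω) : dg vs (w1 vs w ε ω) v = dg vs w v + XX vs w ε v ω := by
  unfold XX
  rw [ind_pos h]
  ring

theorem dg_of_not_Sv {vs : E → Finset V} {w : E → ℝ} {ε : ℝ} {v : V} {ω : E ⊕ V → Bool}
    (h : ¬ Sv vs {v} ω) : dg vs (w1 vs w ε ω) v = 0 := by
  have h1 := ind_dg vs w ε v ω
  rw [ind_neg h, zero_mul] at h1
  exact h1.symm

theorem sum_max_le {vs : E → Finset V} {w : E → ℝ} {ε : ℝ} (hd : ∀ v, dg vs w v ≤ 1)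
    (ω : E ⊕ V → Bool) :
    ∑ v, max (dg vs (w1 vs w ε ω) v - 1) 0 ≤ ∑ v, |XX vs w ε v ω| := by
  refine Finset.sum_le_sum fun v _ => max_le ?_ (abs_nonneg _)
  by_cases h : Sv vs {v} ω
  · rw [XX_of_Sv h]
    have := le_abs_self (XX vs w ε v ω)
    linarith [hd v]
  · rw [dg_of_not_Sv h]
    linarith [abs_nonneg (XX vs w ε v ω)]

theorem sum_def_le {vs : E → Finset V} {w : E → ℝ} {ε : ℝ} (I I' : Finset V)
    (ω : E ⊕ V → Bool) (hI : ∀ i, i ∈ I' ↔ i ∈ I ∧ Sv vs {i} ω) :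
    ∑ i ∈ I', (1 - dg vs (w1 vs w ε ω) i) ≤
      ∑ i ∈ I, (1 - dg vs w i) * ind (Sv vs {i} ω) + ∑ v, |XX vs w ε v ω| := by
  have h1 : ∑ i ∈ I', (1 - dg vs (w1 vs w ε ω) i) ≤
      ∑ i ∈ I', ((1 - dg vs w i) * ind (Sv vs {i} ω) + |XX vs w ε i ω|) := by
    refine Finset.sum_le_sum fun i hi => ?_
    have hS := ((hI i).1 hi).2
    rw [XX_of_Sv hS, ind_pos hS]
    have := neg_le_abs (XX vs w ε i ω)
    linarith
  refine h1.trans ?_
  rw [Finset.sum_add_distrib]
  refine add_le_add ?_ ?_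
  · refine le_of_eq (Finset.sum_subset (fun i hi => ((hI i).1 hi).1) fun i hi hi' => ?_)
    rw [ind_neg, mul_zero]
    exact fun hS => hi' ((hI i).2 ⟨hi, hS⟩)
  · exact Finset.sum_le_sum_of_subset_of_nonneg (Finset.subset_univ _) fun i _ _ => abs_nonneg _

theorem cw_w1_le {vs : E → Finset V} {w : E → ℝ} {ε : ℝ} {k : ℕ} (hε : 0 ≤ ε) (hε1 : ε ≤ 1)
    (hw : ∀ e, 0 ≤ w e) (hk : ∀ e, (vs e).card ≤ k) (ω : E ⊕ V → Bool) (e : E) :
    w1 vs w ε ω e ≤ Real.exp k * w e := by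
  unfold w1
  have h1 : Real.exp (ε * (((vs e).card : ℝ) - 1)) ≤ Real.exp k := by
    refine Real.exp_le_exp.2 ?_
    have h2 : ((vs e).card : ℝ) ≤ k := by exact_mod_cast hk e
    have h3 : (0 : ℝ) ≤ ((vs e).card : ℝ) := Nat.cast_nonneg _
    have h4 := mul_le_mul_of_nonneg_right hε1 (Nat.cast_nonneg (α := ℝ) k)
    have h5 := mul_le_mul_of_nonneg_left h2 hε
    nlinarith
  have h6 := ind_le_one (Sv vs (vs e) ω)
  have h7 := ind_nonneg (Sv vs (vs e) ω)
  have h8 : 0 ≤ w e * Real.exp (ε * (((vs e).card : ℝ) - 1)) :=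
    mul_nonneg (hw e) (Real.exp_pos _).le
  calc w e * Real.exp (ε * (((vs e).card : ℝ) - 1)) * ind (Sv vs (vs e) ω)
      ≤ w e * Real.exp (ε * (((vs e).card : ℝ) - 1)) * 1 := mul_le_mul_of_nonneg_left h6 h8
    _ ≤ w e * Real.exp k := by
        rw [mul_one]
        exact mul_le_mul_of_nonneg_left h1 (hw e)
    _ = _ := mul_comm _ _

end

theorem rounds (k : ℕ) {ε : ℝ} (hε : 0 < ε) (hε1 : ε ≤ 1 / 2) (r : ℕ) :
    ∀ τ : ℝ, 0 < τ → ∃ κ : ℝ, 0 < κ ∧
      ∀ (V E : Type) [Fintype V] [DecidableEq V] [Fintype E] [DecidableEq E]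
        (vs : E → Finset V) (w : E → ℝ) (I : Finset V), (∀ e, 0 ≤ w e) →
        (∀ e, (vs e).card ≤ k) → (∀ v, dg vs w v ≤ 1) → (∀ u v, u ≠ v → cw vs w u v ≤ κ) →
        ∃ M : Finset E, (∀ e ∈ M, 0 < w e) ∧
          (∀ e ∈ M, ∀ f ∈ M, e ≠ f → Disjoint (vs e) (vs f)) ∧
          unc vs I M ≤ 2 * ∑ i ∈ I, (1 - dg vs w i) +
            (2 * (k + 1) * ε + Real.exp (-ε) ^ r) * (I.card : ℝ) + τ * (Fintype.card V : ℝ) := by
  induction r with
  | zero =>
    intro τ hτ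
    refine ⟨1, one_pos, ?_⟩
    intro V E _ _ _ _ vs w I hw hk hd hc
    refine ⟨∅, by simp, by simp, ?_⟩
    have h1 : unc vs I (∅ : Finset E) ≤ (I.card : ℝ) := by
      unfold unc
      calc ∑ i ∈ I, ind (∀ e ∈ (∅ : Finset E), i ∉ vs e) ≤ ∑ _i ∈ I, (1 : ℝ) :=
            Finset.sum_le_sum fun i _ => ind_le_one _
        _ = _ := by simp
    have h2 : 0 ≤ ∑ i ∈ I, (1 - dg vs w i) := Finset.sum_nonneg fun i _ => by linarith [hd i]
    have h3 : 0 ≤ τ * (Fintype.card V : ℝ) := by positivity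
    have h4 : 0 ≤ 2 * (k + 1) * ε * (I.card : ℝ) := by positivity
    rw [pow_zero]
    linarith
  | succ r ih =>
    intro τ hτ
    obtain ⟨κ0, hκ0, IH⟩ := ih (τ / 2) (half_pos hτ)
    set s : ℝ := τ / (4 * (k + 1)) with hs
    have hs0 : 0 < s := by positivity
    set C : ℝ := 2 * (2 * (k : ℝ)) ^ 2 + Real.exp (2 * k) * k + 1 with hC
    have hC0 : 0 < C := by positivity
    set κ : ℝ := min (κ0 / Real.exp k) (min (1 / C) (s ^ 2 / C)) with hκ
    have hκpos : 0 < κ := by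
      rw [hκ]
      exact lt_min (by positivity) (lt_min (by positivity) (by positivity))
    have hκa : Real.exp k * κ ≤ κ0 := by
      have h1 : κ ≤ κ0 / Real.exp k := min_le_left _ _
      have h2 := (le_div_iff₀ (Real.exp_pos _)).1 h1
      linarith
    have hκb : κ * C ≤ 1 :=
      (le_div_iff₀ hC0).1 ((min_le_right _ _).trans (min_le_left _ _))
    have hκc : κ * C ≤ s ^ 2 :=
      (le_div_iff₀ hC0).1 ((min_le_right _ _).trans (min_le_right _ _))
    have hE0 : 0 ≤ Real.exp (2 * (k : ℝ)) * k := mul_nonneg (Real.exp_pos _).le (Nat.cast_nonneg _)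
    have hκ1 : κ * (2 * (k : ℝ)) ^ 2 ≤ 1 := by
      refine le_trans (mul_le_mul_of_nonneg_left ?_ hκpos.le) hκb
      have : 0 ≤ (2 * (k : ℝ)) ^ 2 := sq_nonneg _
      rw [hC]
      linarith
    have hκ2 : 2 * (κ * (2 * (k : ℝ)) ^ 2) + Real.exp (2 * k) * (k * κ) ≤ s ^ 2 := by
      refine le_trans (le_of_eq ?_) ((mul_le_mul_of_nonneg_left (show 2 * (2 * (k : ℝ)) ^ 2 +
        Real.exp (2 * k) * k ≤ C by rw [hC]; linarith) hκpos.le).trans hκc)
      ring
    refine ⟨κ, hκpos, ?_⟩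
    intro V E _ _ _ _ vs w I hw hk hd hc
    have hε0 := hε.le
    have hε1' : ε ≤ 1 := by linarith
    set q := qq vs w ε with hq
    have hq0 := qq_nonneg vs w ε
    have hq1 := qq_le_one hε0 hw hd
    set B : ℝ := 2 * (k + 1) * ε + Real.exp (-ε) ^ r with hB
    set Δ : ℝ := ∑ i ∈ I, (1 - dg vs w i) with hΔ
    have hΔ0 : 0 ≤ Δ := Finset.sum_nonneg fun i _ => by linarith [hd i]
    set ρ : ℝ := Real.exp (-ε) with hρ
    have hρ0 : 0 < ρ := Real.exp_pos _
    have hρ1 : ρ ≤ 1 - ε / 2 := by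
      have := one_sub_exp hε0
      nlinarith
    -- the objective
    set F : (E ⊕ V → Bool) → ℝ := fun ω =>
      ((∑ i ∈ I, ind (¬ Sv vs {i} ω ∧ ¬ Cv vs w i ω)) +
        2 * (∑ i ∈ I, (1 - dg vs w i) * ind (Sv vs {i} ω))) +
        (2 * ((1 + k) * ∑ v, |XX vs w ε v ω|) + B * ∑ i ∈ I, ind (Sv vs {i} ω)) with hF
    have hEF : Ex q F ≤ 2 * Δ + (2 * (k + 1) * ε + ρ ^ (r + 1)) * (I.card : ℝ) +
        τ / 2 * (Fintype.card V : ℝ) := by
      rw [hF, Ex_add, Ex_add, Ex_add, Ex_smul, Ex_smul, Ex_smul, Ex_smul, Ex_sum, Ex_sum, Ex_sum,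
        Ex_sum]
      have h1 : ∑ i ∈ I, Ex q (fun ω => ind (¬ Sv vs {i} ω ∧ ¬ Cv vs w i ω)) ≤
          ε * Δ + (k + 1) * ε ^ 2 * (I.card : ℝ) := by
        calc ∑ i ∈ I, Ex q (fun ω => ind (¬ Sv vs {i} ω ∧ ¬ Cv vs w i ω))
            ≤ ∑ i ∈ I, (ε * (1 - dg vs w i) + (k + 1) * ε ^ 2) :=
              Finset.sum_le_sum fun i _ => Ex_lost hε0 hε1' hw hd hk i
          _ = _ := by
              rw [Finset.sum_add_distrib, ← Finset.mul_sum, Finset.sum_const, nsmul_eq_mul]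
              ring
      have h2 : ∑ i ∈ I, Ex q (fun ω => (1 - dg vs w i) * ind (Sv vs {i} ω)) = ρ * Δ := by
        rw [hΔ, Finset.mul_sum]
        refine Finset.sum_congr rfl fun i _ => ?_
        rw [Ex_smul]
        have h3 : Ex q (fun ω => ind (Sv vs {i} ω)) = ρ := pS_single vs w ε i
        rw [h3]
        ring
      have h4 : ∑ v, Ex q (fun ω => |XX vs w ε v ω|) ≤ s * (Fintype.card V : ℝ) := by
        calc ∑ v, Ex q (fun ω => |XX vs w ε v ω|) ≤ ∑ _v : V, s :=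
              Finset.sum_le_sum fun v _ => Ex_abs hε0 hε1' hκpos.le hw hd hc hk hs0 hκ1 hκ2 v
          _ = _ := by
              rw [Finset.sum_const, nsmul_eq_mul, Finset.card_univ]
              ring
      have h5 : ∑ i ∈ I, Ex q (fun ω => ind (Sv vs {i} ω)) = ρ * (I.card : ℝ) := by
        calc ∑ i ∈ I, Ex q (fun ω => ind (Sv vs {i} ω)) = ∑ _i ∈ I, ρ :=
              Finset.sum_congr rfl fun i _ => pS_single vs w ε i
          _ = _ := by
              rw [Finset.sum_const, nsmul_eq_mul]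
              ring
      rw [h2, h5]
      have h6 : 2 * ((1 + (k : ℝ)) * ∑ v, Ex q (fun ω => |XX vs w ε v ω|)) ≤
          τ / 2 * (Fintype.card V : ℝ) := by
        calc 2 * ((1 + (k : ℝ)) * ∑ v, Ex q (fun ω => |XX vs w ε v ω|))
            ≤ 2 * ((1 + (k : ℝ)) * (s * (Fintype.card V : ℝ))) := by
              have : (0 : ℝ) ≤ 1 + k := by positivity
              have := mul_le_mul_of_nonneg_left h4 this
              linarith
          _ = _ := by
              rw [hs]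
              field_simp
              ring
      have h7 : (ε + 2 * ρ) * Δ ≤ 2 * Δ := mul_le_mul_of_nonneg_right (by linarith) hΔ0
      have h8 : ((k + 1) * ε ^ 2 + B * ρ) * (I.card : ℝ) ≤
          (2 * (k + 1) * ε + ρ ^ (r + 1)) * (I.card : ℝ) := by
        refine mul_le_mul_of_nonneg_right ?_ (Nat.cast_nonneg _)
        have h9 : 0 ≤ 2 * ((k : ℝ) + 1) * ε := by positivity
        have h10 := mul_le_mul_of_nonneg_left hρ1 h9
        have h11 : 2 * ((k : ℝ) + 1) * ε * (1 - ε / 2) =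
            2 * ((k : ℝ) + 1) * ε - (k + 1) * ε ^ 2 := by ring
        have h12 : B * ρ = 2 * ((k : ℝ) + 1) * ε * ρ + ρ ^ (r + 1) := by
          rw [hB]
          ring
        rw [h12]
        linarith
      nlinarith
    obtain ⟨ω, hω⟩ := exists_le_Ex hq0 hq1 F hEF
    classical
    set I' : Finset V := I.filter fun i => Sv vs {i} ω with hI'
    have hI'' : ∀ i, i ∈ I' ↔ i ∈ I ∧ Sv vs {i} ω := fun i => by rw [hI', Finset.mem_filter]
    obtain ⟨w', hw'0, hw'1, hw'd, hw'I⟩ := clean vs (w1_nonneg hw ε ω) hk I'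
    have hw'c : ∀ u v, u ≠ v → cw vs w' u v ≤ κ0 := by
      intro u v huv
      refine le_trans ?_ hκa
      refine le_trans ?_ (mul_le_mul_of_nonneg_left (hc u v huv) (Real.exp_pos _).le)
      unfold cw
      rw [Finset.mul_sum]
      exact Finset.sum_le_sum fun e _ => (hw'1 e).trans (cw_w1_le hε0 hε1' hw hk ω e)
    obtain ⟨M', hM'0, hM'd, hM'u⟩ := IH V E vs w' I' hw'0 hk hw'd hw'c
    have hpos : ∀ e ∈ M', 0 < w e ∧ Sv vs (vs e) ω := by
      intro e he
      have h1 : 0 < w1 vs w ε ω e := lt_of_lt_of_le (hM'0 e he) (hw'1 e)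
      have h2 : Sv vs (vs e) ω := by
        by_contra hcon
        unfold w1 at h1
        rw [ind_neg hcon, mul_zero] at h1
        exact lt_irrefl _ h1
      refine ⟨?_, h2⟩
      rcases (hw e).eq_or_lt with h3 | h3
      · unfold w1 at h1
        rw [← h3, zero_mul, zero_mul] at h1
        exact absurd h1 (lt_irrefl _)
      · exact h3
    set M0 : Finset E := Finset.univ.filter fun e => Gd vs w e ω with hM0
    have hM0' : ∀ e, e ∈ M0 ↔ Gd vs w e ω := fun e => by simp [hM0]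
    have hcross : ∀ e ∈ M0, ∀ f ∈ M', Disjoint (vs e) (vs f) := by
      intro e he f hf
      by_contra hcon
      have h1 := (hpos f hf).2 (Sum.inl e) (Finset.inl_mem_disjSum.2
        (Finset.mem_filter.2 ⟨Finset.mem_univ _, hcon⟩))
      rw [((hM0' e).1 he).2.1] at h1
      exact Bool.false_ne_true h1.symm
    refine ⟨M0 ∪ M', ?_, ?_, ?_⟩
    · intro e he
      rcases Finset.mem_union.1 he with he | he
      · exact ((hM0' e).1 he).1
      · exact (hpos e he).1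
    · intro e he f hf hef
      rcases Finset.mem_union.1 he with he | he <;> rcases Finset.mem_union.1 hf with hf | hf
      · exact Gd_disj ((hM0' e).1 he) ((hM0' f).1 hf) hef
      · exact hcross e he f hf
      · exact (hcross f hf e he).symm
      · exact hM'd e he f hf hef
    · have h1 : unc vs I (M0 ∪ M') ≤ (∑ i ∈ I, ind (¬ Sv vs {i} ω ∧ ¬ Cv vs w i ω)) +
          unc vs I' M' := by
        have h2 : unc vs I' M' = ∑ i ∈ I, ind (Sv vs {i} ω ∧ ∀ e ∈ M', i ∉ vs e) := by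
          unfold unc
          rw [hI', Finset.sum_filter]
          refine Finset.sum_congr rfl fun i _ => ?_
          by_cases hS : Sv vs {i} ω
          · rw [if_pos hS]
            exact ind_congr ⟨fun h => ⟨hS, h⟩, fun h => h.2⟩
          · rw [if_neg hS, ind_neg fun h => hS h.1]
        rw [h2, ← Finset.sum_add_distrib]
        unfold unc
        refine Finset.sum_le_sum fun i _ => ?_
        by_cases hS : Sv vs {i} ω
        · have h3 : ind (∀ e ∈ M0 ∪ M', i ∉ vs e) ≤ ind (Sv vs {i} ω ∧ ∀ e ∈ M', i ∉ vs e) := by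
            by_cases h4 : ∀ e ∈ M0 ∪ M', i ∉ vs e
            · rw [ind_pos h4, ind_pos ⟨hS, fun e he => h4 e (Finset.mem_union_right _ he)⟩]
            · rw [ind_neg h4]
              exact ind_nonneg _
          linarith [ind_nonneg (¬ Sv vs {i} ω ∧ ¬ Cv vs w i ω)]
        · have h3 : ind (∀ e ∈ M0 ∪ M', i ∉ vs e) ≤ ind (¬ Sv vs {i} ω ∧ ¬ Cv vs w i ω) := by
            by_cases h4 : ∀ e ∈ M0 ∪ M', i ∉ vs e
            · rw [ind_pos h4, ind_pos]
              refine ⟨hS, ?_⟩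
              rintro ⟨e, he, hG⟩
              exact h4 e (Finset.mem_union_left _ ((hM0' e).2 hG)) he
            · rw [ind_neg h4]
              exact ind_nonneg _
          linarith [ind_nonneg (Sv vs {i} ω ∧ ∀ e ∈ M', i ∉ vs e)]
      have h2 := sum_max_le (ε := ε) hd ω
      have h3 := sum_def_le (w := w) (ε := ε) I I' ω hI''
      have h4 : (I'.card : ℝ) = ∑ i ∈ I, ind (Sv vs {i} ω) := by
        rw [hI', Finset.card_filter]
        push_cast
        refine Finset.sum_congr rfl fun i _ => ?_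
        by_cases hS : Sv vs {i} ω
        · rw [if_pos hS, ind_pos hS]
        · rw [if_neg hS, ind_neg hS]
      have h5 : (k : ℝ) * ∑ v, max (dg vs (w1 vs w ε ω) v - 1) 0 ≤
          k * ∑ v, |XX vs w ε v ω| := mul_le_mul_of_nonneg_left h2 (Nat.cast_nonneg _)
      have h6 : unc vs I (M0 ∪ M') ≤ F ω + τ / 2 * (Fintype.card V : ℝ) := by
        rw [hF]
        rw [h4] at hM'u
        linarith
      linarith

/-- **Weighted nibble.** All degrees at most one, all coweights at most `κ`: there is a matching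
which covers all but `2 Σ_I (1 - d(i)) + η |V|` of the vertices of any given set `I`. -/
theorem nibble (k : ℕ) {η : ℝ} (hη : 0 < η) : ∃ κ : ℝ, 0 < κ ∧
    ∀ (V E : Type) [Fintype V] [DecidableEq V] [Fintype E] [DecidableEq E]
      (vs : E → Finset V) (w : E → ℝ) (I : Finset V), (∀ e, 0 ≤ w e) →
      (∀ e, (vs e).card ≤ k) → (∀ v, dg vs w v ≤ 1) → (∀ u v, u ≠ v → cw vs w u v ≤ κ) →
      ∃ M : Finset E, (∀ e ∈ M, 0 < w e) ∧
        (∀ e ∈ M, ∀ f ∈ M, e ≠ f → Disjoint (vs e) (vs f)) ∧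
        ((I.filter fun i => ∀ e ∈ M, i ∉ vs e).card : ℝ) ≤
          2 * ∑ i ∈ I, (1 - dg vs w i) + η * (Fintype.card V : ℝ) := by
  set ε : ℝ := min (1 / 2) (η / (8 * (k + 1))) with hε
  have hε0 : 0 < ε := lt_min (by norm_num) (by positivity)
  have hε1 : ε ≤ 1 / 2 := min_le_left _ _
  have hε2 : 2 * (k + 1) * ε ≤ η / 4 := by
    have h1 : ε ≤ η / (8 * (k + 1)) := min_le_right _ _
    rw [le_div_iff₀ (by positivity)] at h1
    linarith
  obtain ⟨r, hr⟩ : ∃ r : ℕ, Real.exp (-ε) ^ r < η / 4 :=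
    exists_pow_lt_of_lt_one (by positivity) (Real.exp_lt_one_iff.2 (by linarith))
  obtain ⟨κ, hκ, H⟩ := rounds k hε0 hε1 r (η / 2) (half_pos hη)
  refine ⟨κ, hκ, ?_⟩
  intro V E _ _ _ _ vs w I hw hk hd hc
  obtain ⟨M, h1, h2, h3⟩ := H V E vs w I hw hk hd hc
  refine ⟨M, h1, h2, ?_⟩
  have h4 : ((I.filter fun i => ∀ e ∈ M, i ∉ vs e).card : ℝ) = unc vs I M := by
    classical
    unfold unc
    rw [Finset.card_filter]
    push_cast
    refine Finset.sum_congr rfl fun i _ => ?_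
    by_cases hS : ∀ e ∈ M, i ∉ vs e
    · rw [if_pos hS, ind_pos hS]
    · rw [if_neg hS, ind_neg hS]
  rw [h4]
  have h5 : (I.card : ℝ) ≤ (Fintype.card V : ℝ) := by exact_mod_cast Finset.card_le_univ I
  have h6 : (0 : ℝ) ≤ (I.card : ℝ) := Nat.cast_nonneg _
  have h7 : (2 * (k + 1) * ε + Real.exp (-ε) ^ r) * (I.card : ℝ) ≤
      (η / 4 + η / 4) * (Fintype.card V : ℝ) :=
    mul_le_mul (by linarith) h5 h6 (by positivity)
  linarith

end NB
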