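import Pool.Agent.Lib.MP_c5b475_co.NB.Prob

/-!
# NB/Surv: degrees, coweights, survival probabilities
-/

set_option autoImplicit false
set_option linter.unusedSectionVars false

namespace NB

open Finset

variable {V E : Type} [Fintype V] [DecidableEq V] [Fintype E] [DecidableEq E]

/-- weighted degree -/
noncomputable def dg (vs : E → Finset V) (w : E → ℝ) (v : V) : ℝ := ∑ e with v ∈ vs e, w e

/-- coweight -/
noncomputable def cw (vs : E → Finset V) (w : E → ℝ) (u v : V) : ℝ :=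
  ∑ e with u ∈ vs e ∧ v ∈ vs e, w e

/-- edges which meet `A` -/
def mt (vs : E → Finset V) (A : Finset V) : Finset E :=
  Finset.univ.filter (fun e => ¬ Disjoint (vs e) A)

/-- probabilities of `off` -/
noncomputable def qq (vs : E → Finset V) (w : E → ℝ) (ε : ℝ) : E ⊕ V → ℝ :=
  Sum.elim (fun e => Real.exp (-(ε * w e))) (fun v => Real.exp (-(ε * (1 - dg vs w v))))

/-- all vertices of `A` survive -/
def Sv (vs : E → Finset V) (A : Finset V) (ω : E ⊕ V → Bool) : Prop :=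
  ∀ j ∈ (mt vs A).disjSum A, ω j = false

theorem mem_mt {vs : E → Finset V} {A : Finset V} {e : E} : e ∈ mt vs A ↔ ∃ v ∈ A, v ∈ vs e := by
  unfold mt
  rw [Finset.mem_filter, Finset.not_disjoint_iff]
  constructor
  · rintro ⟨_, v, h1, h2⟩
    exact ⟨v, h2, h1⟩
  · rintro ⟨v, h1, h2⟩
    exact ⟨Finset.mem_univ _, v, h2, h1⟩

theorem Sv_iff {vs : E → Finset V} {A : Finset V} {ω : E ⊕ V → Bool} :
    Sv vs A ω ↔ ∀ v ∈ A, Sv vs {v} ω := by
  unfold Sv
  constructor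
  · intro h v hv j hj
    rcases Finset.mem_disjSum.1 hj with ⟨e, he, rfl⟩ | ⟨u, hu, rfl⟩
    · refine h _ (Finset.inl_mem_disjSum.2 ?_)
      obtain ⟨u, hu, hue⟩ := mem_mt.1 he
      rw [Finset.mem_singleton] at hu
      subst hu
      exact mem_mt.2 ⟨u, hv, hue⟩
    · refine h _ (Finset.inr_mem_disjSum.2 ?_)
      rw [Finset.mem_singleton] at hu
      subst hu
      exact hv
  · intro h j hj
    rcases Finset.mem_disjSum.1 hj with ⟨e, he, rfl⟩ | ⟨u, hu, rfl⟩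
    · obtain ⟨u, hu, hue⟩ := mem_mt.1 he
      exact h u hu _ (Finset.inl_mem_disjSum.2 (mem_mt.2 ⟨u, Finset.mem_singleton_self _, hue⟩))
    · exact h u hu _ (Finset.inr_mem_disjSum.2 (Finset.mem_singleton_self _))

theorem Sv_mono {vs : E → Finset V} {A B : Finset V} (h : A ⊆ B) {ω : E ⊕ V → Bool}
    (hB : Sv vs B ω) : Sv vs A ω := Sv_iff.2 fun v hv => Sv_iff.1 hB v (h hv)

theorem Sv_union {vs : E → Finset V} {A B : Finset V} {ω : E ⊕ V → Bool} :
    Sv vs (A ∪ B) ω ↔ Sv vs A ω ∧ Sv vs B ω := by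
  constructor
  · exact fun h => ⟨Sv_mono Finset.subset_union_left h, Sv_mono Finset.subset_union_right h⟩
  · rintro ⟨h1, h2⟩
    refine Sv_iff.2 fun v hv => ?_
    rcases Finset.mem_union.1 hv with hv | hv
    · exact Sv_iff.1 h1 v hv
    · exact Sv_iff.1 h2 v hv

theorem ind_mul_Sv {vs : E → Finset V} {A B : Finset V} {ω : E ⊕ V → Bool} :
    ind (Sv vs A ω) * ind (Sv vs B ω) = ind (Sv vs (A ∪ B) ω) := by
  by_cases h1 : Sv vs A ω
  · by_cases h2 : Sv vs B ω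
    · rw [ind_pos h1, ind_pos h2, ind_pos (Sv_union.2 ⟨h1, h2⟩), mul_one]
    · rw [ind_neg h2, ind_neg (fun h => h2 (Sv_union.1 h).2), mul_zero]
  · rw [ind_neg h1, ind_neg (fun h => h1 (Sv_union.1 h).1), zero_mul]

theorem qq_nonneg (vs : E → Finset V) (w : E → ℝ) (ε : ℝ) (j : E ⊕ V) : 0 ≤ qq vs w ε j := by
  rcases j with e | v
  · exact (Real.exp_pos _).le
  · exact (Real.exp_pos _).le

theorem qq_le_one {vs : E → Finset V} {w : E → ℝ} {ε : ℝ} (hε : 0 ≤ ε) (hw : ∀ e, 0 ≤ w e)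
    (hd : ∀ v, dg vs w v ≤ 1) (j : E ⊕ V) : qq vs w ε j ≤ 1 := by
  rcases j with e | v
  · refine Real.exp_le_one_iff.2 ?_
    have := mul_nonneg hε (hw e)
    linarith
  · refine Real.exp_le_one_iff.2 ?_
    have := mul_nonneg hε (sub_nonneg.2 (hd v))
    linarith

/-- survival probability -/
noncomputable def pS (vs : E → Finset V) (w : E → ℝ) (ε : ℝ) (A : Finset V) : ℝ :=
  Ex (qq vs w ε) (fun ω => ind (Sv vs A ω))

theorem pS_eq (vs : E → Finset V) (w : E → ℝ) (ε : ℝ) (A : Finset V) :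
    pS vs w ε A = Real.exp (-(ε * (∑ e ∈ mt vs A, w e + ∑ v ∈ A, (1 - dg vs w v)))) := by
  unfold pS Sv
  rw [Ex_off, Finset.prod_disjSum]
  show (∏ e ∈ mt vs A, Real.exp (-(ε * w e))) * ∏ v ∈ A, Real.exp (-(ε * (1 - dg vs w v))) = _
  rw [← Real.exp_sum, ← Real.exp_sum, ← Real.exp_add]
  congr 1
  rw [Finset.sum_neg_distrib, Finset.sum_neg_distrib, ← Finset.mul_sum, ← Finset.mul_sum]
  ring

theorem sum_dg (vs : E → Finset V) (w : E → ℝ) (A : Finset V) :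
    ∑ v ∈ A, dg vs w v = ∑ e, w e * ((vs e ∩ A).card : ℝ) := by
  unfold dg
  simp_rw [Finset.sum_filter]
  rw [Finset.sum_comm]
  refine Finset.sum_congr rfl fun e _ => ?_
  rw [← Finset.sum_filter, Finset.sum_const, nsmul_eq_mul, mul_comm]
  congr 2
  congr 1
  ext v
  simp [and_comm]

theorem sum_mt (vs : E → Finset V) (w : E → ℝ) (A : Finset V) :
    ∑ e ∈ mt vs A, w e = ∑ e, w e * (if (vs e ∩ A).card = 0 then 0 else 1) := by
  unfold mt
  rw [Finset.sum_filter]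
  refine Finset.sum_congr rfl fun e _ => ?_
  by_cases h : Disjoint (vs e) A
  · rw [if_neg (not_not.2 h), if_pos (Finset.card_eq_zero.2 (Finset.disjoint_iff_inter_eq_empty.1 h)),
      mul_zero]
  · rw [if_pos h, if_neg, mul_one]
    intro h2
    exact h (Finset.disjoint_iff_inter_eq_empty.2 (Finset.card_eq_zero.1 h2))

theorem sum_cw (vs : E → Finset V) (w : E → ℝ) (A : Finset V) :
    ∑ p ∈ A.offDiag, cw vs w p.1 p.2 =
      ∑ e, w e * (((vs e ∩ A).card : ℝ) * ((vs e ∩ A).card : ℝ) - ((vs e ∩ A).card : ℝ)) := by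
  unfold cw
  simp_rw [Finset.sum_filter]
  rw [Finset.sum_comm]
  refine Finset.sum_congr rfl fun e _ => ?_
  rw [← Finset.sum_filter, Finset.sum_const, nsmul_eq_mul, mul_comm]
  congr 1
  have h : (A.offDiag.filter fun p => p.1 ∈ vs e ∧ p.2 ∈ vs e) = (vs e ∩ A).offDiag := by
    ext p
    simp only [Finset.mem_filter, Finset.mem_offDiag, Finset.mem_inter]
    tauto
  rw [h, Finset.offDiag_card, Nat.cast_sub (Nat.le_mul_self _), Nat.cast_mul]

theorem pS_ge {vs : E → Finset V} {w : E → ℝ} {ε : ℝ} (hε : 0 ≤ ε) (hw : ∀ e, 0 ≤ w e)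
    (A : Finset V) : Real.exp (-(ε * (A.card : ℝ))) ≤ pS vs w ε A := by
  rw [pS_eq]
  refine Real.exp_le_exp.2 (neg_le_neg (mul_le_mul_of_nonneg_left ?_ hε))
  have h1 : ∑ e ∈ mt vs A, w e ≤ ∑ v ∈ A, dg vs w v := by
    rw [sum_mt, sum_dg]
    refine Finset.sum_le_sum fun e _ => mul_le_mul_of_nonneg_left ?_ (hw e)
    split_ifs with h
    · exact Nat.cast_nonneg _
    · have : 1 ≤ (vs e ∩ A).card := Nat.one_le_iff_ne_zero.2 h
      exact_mod_cast this
  have h2 : ∑ v ∈ A, (1 - dg vs w v) = (A.card : ℝ) - ∑ v ∈ A, dg vs w v := by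
    rw [Finset.sum_sub_distrib, Finset.sum_const, nsmul_eq_mul, mul_one]
  rw [h2]
  linarith

theorem pS_le {vs : E → Finset V} {w : E → ℝ} {ε κ : ℝ} (hε : 0 ≤ ε) (hκ : 0 ≤ κ)
    (hw : ∀ e, 0 ≤ w e) (hc : ∀ u v, u ≠ v → cw vs w u v ≤ κ) (A : Finset V) :
    pS vs w ε A ≤ Real.exp (-(ε * (A.card : ℝ))) * Real.exp (ε * (κ * (A.card : ℝ) ^ 2)) := by
  rw [pS_eq, ← Real.exp_add]
  refine Real.exp_le_exp.2 ?_
  have h2 : ∑ v ∈ A, (1 - dg vs w v) = (A.card : ℝ) - ∑ v ∈ A, dg vs w v := by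
    rw [Finset.sum_sub_distrib, Finset.sum_const, nsmul_eq_mul, mul_one]
  have h3 : ∑ v ∈ A, dg vs w v - ∑ e ∈ mt vs A, w e ≤ ∑ p ∈ A.offDiag, cw vs w p.1 p.2 := by
    rw [sum_mt, sum_dg, sum_cw, ← Finset.sum_sub_distrib]
    refine Finset.sum_le_sum fun e _ => ?_
    rw [← mul_sub]
    refine mul_le_mul_of_nonneg_left ?_ (hw e)
    split_ifs with h
    · rw [h]; norm_num
    · have h4 : (1 : ℝ) ≤ ((vs e ∩ A).card : ℝ) := by exact_mod_cast Nat.one_le_iff_ne_zero.2 h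
      nlinarith
  have h4 : ∑ p ∈ A.offDiag, cw vs w p.1 p.2 ≤ κ * (A.card : ℝ) ^ 2 := by
    calc ∑ p ∈ A.offDiag, cw vs w p.1 p.2 ≤ ∑ _p ∈ A.offDiag, κ :=
          Finset.sum_le_sum fun p hp => hc _ _ (Finset.mem_offDiag.1 hp).2.2
      _ = (A.offDiag.card : ℝ) * κ := by rw [Finset.sum_const, nsmul_eq_mul]
      _ ≤ κ * (A.card : ℝ) ^ 2 := by
          rw [mul_comm]
          refine mul_le_mul_of_nonneg_left ?_ hκ
          rw [Finset.offDiag_card, Nat.cast_sub (Nat.le_mul_self _), Nat.cast_mul]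
          have := Nat.cast_nonneg (α := ℝ) A.card
          nlinarith
  rw [h2]
  nlinarith [mul_le_mul_of_nonneg_left (h3.trans h4) hε]

theorem dg_eq_mt (vs : E → Finset V) (w : E → ℝ) (v : V) : ∑ e ∈ mt vs {v}, w e = dg vs w v := by
  unfold dg
  refine Finset.sum_congr ?_ fun _ _ => rfl
  ext e
  rw [mem_mt]
  simp

theorem pS_single (vs : E → Finset V) (w : E → ℝ) (ε : ℝ) (v : V) :
    pS vs w ε {v} = Real.exp (-ε) := by
  rw [pS_eq, dg_eq_mt, Finset.sum_singleton]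
  congr 1
  ring

end NB
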