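import Pool.Agent.Lib.MP_c5b475_co.NB.Surv

/-!
# NB/Mom: the weights after one bite, second moment
-/

set_option autoImplicit false
set_option linter.unusedSectionVars false

namespace NB

open Finset

variable {V E : Type} [Fintype V] [DecidableEq V] [Fintype E] [DecidableEq E]

/-- new weights after a bite -/
noncomputable def w1 (vs : E → Finset V) (w : E → ℝ) (ε : ℝ) (ω : E ⊕ V → Bool) (e : E) : ℝ :=
  w e * Real.exp (ε * (((vs e).card : ℝ) - 1)) * ind (Sv vs (vs e) ω)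

/-- deviation of the degree -/
noncomputable def XX (vs : E → Finset V) (w : E → ℝ) (ε : ℝ) (v : V) (ω : E ⊕ V → Bool) : ℝ :=
  dg vs (w1 vs w ε ω) v - ind (Sv vs {v} ω) * dg vs w v

theorem w1_nonneg {vs : E → Finset V} {w : E → ℝ} (hw : ∀ e, 0 ≤ w e) (ε : ℝ)
    (ω : E ⊕ V → Bool) (e : E) : 0 ≤ w1 vs w ε ω e :=
  mul_nonneg (mul_nonneg (hw e) (Real.exp_pos _).le) (ind_nonneg _)

theorem dg_nonneg {vs : E → Finset V} {w : E → ℝ} (hw : ∀ e, 0 ≤ w e) (v : V) :
    0 ≤ dg vs w v := Finset.sum_nonneg fun e _ => hw e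

theorem Ex_w1 (vs : E → Finset V) (w : E → ℝ) (ε : ℝ) (e : E) :
    Ex (qq vs w ε) (fun ω => w1 vs w ε ω e) =
      w e * Real.exp (ε * (((vs e).card : ℝ) - 1)) * pS vs w ε (vs e) := by
  unfold w1 pS
  rw [Ex_smul]

theorem Ex_dg_ge {vs : E → Finset V} {w : E → ℝ} {ε : ℝ} (hε : 0 ≤ ε) (hw : ∀ e, 0 ≤ w e)
    (v : V) : Real.exp (-ε) * dg vs w v ≤ Ex (qq vs w ε) (fun ω => dg vs (w1 vs w ε ω) v) := by
  unfold dg
  rw [Ex_sum, Finset.mul_sum]
  refine Finset.sum_le_sum fun e _ => ?_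
  rw [Ex_w1]
  calc Real.exp (-ε) * w e = w e * (Real.exp (ε * (((vs e).card : ℝ) - 1)) *
        Real.exp (-(ε * ((vs e).card : ℝ)))) := by
        rw [← Real.exp_add, mul_comm]
        congr 2
        ring
    _ ≤ w e * (Real.exp (ε * (((vs e).card : ℝ) - 1)) * pS vs w ε (vs e)) :=
        mul_le_mul_of_nonneg_left (mul_le_mul_of_nonneg_left (pS_ge hε hw _)
          (Real.exp_pos _).le) (hw e)
    _ = _ := by ring

theorem ind_dg (vs : E → Finset V) (w : E → ℝ) (ε : ℝ) (v : V) (ω : E ⊕ V → Bool) :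
    ind (Sv vs {v} ω) * dg vs (w1 vs w ε ω) v = dg vs (w1 vs w ε ω) v := by
  unfold dg
  rw [Finset.mul_sum]
  refine Finset.sum_congr rfl fun e he => ?_
  have hv : v ∈ vs e := (Finset.mem_filter.1 he).2
  unfold w1
  have h : ind (Sv vs {v} ω) * ind (Sv vs (vs e) ω) = ind (Sv vs (vs e) ω) := by
    rw [ind_mul_Sv, Finset.union_eq_right.2 (Finset.singleton_subset_iff.2 hv)]
  calc ind (Sv vs {v} ω) * (w e * Real.exp (ε * (((vs e).card : ℝ) - 1)) * ind (Sv vs (vs e) ω))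
      = w e * Real.exp (ε * (((vs e).card : ℝ) - 1)) *
        (ind (Sv vs {v} ω) * ind (Sv vs (vs e) ω)) := by ring
    _ = _ := by rw [h]

theorem pS_le_one {vs : E → Finset V} {w : E → ℝ} {ε : ℝ} (hε : 0 ≤ ε) (hw : ∀ e, 0 ≤ w e)
    (hd : ∀ v, dg vs w v ≤ 1) (A : Finset V) : pS vs w ε A ≤ 1 := by
  unfold pS
  refine (Ex_mono (qq_nonneg vs w ε) (qq_le_one hε hw hd) (g := fun _ => 1)
    fun ω => ind_le_one _).trans ?_
  rw [Ex_const]

theorem w1_w1 (vs : E → Finset V) (w : E → ℝ) (ε : ℝ) (e f : E) :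
    Ex (qq vs w ε) (fun ω => w1 vs w ε ω e * w1 vs w ε ω f) =
      w e * w f * (Real.exp (ε * (((vs e).card : ℝ) - 1)) *
        Real.exp (ε * (((vs f).card : ℝ) - 1)) * pS vs w ε (vs e ∪ vs f)) := by
  have h : (fun ω => w1 vs w ε ω e * w1 vs w ε ω f) =
      fun ω => (w e * w f * (Real.exp (ε * (((vs e).card : ℝ) - 1)) *
        Real.exp (ε * (((vs f).card : ℝ) - 1)))) * ind (Sv vs (vs e ∪ vs f) ω) := by
    funext ω
    unfold w1
    rw [← ind_mul_Sv]
    ring
  rw [h, Ex_smul]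
  unfold pS
  ring

theorem pair_le {vs : E → Finset V} {w : E → ℝ} {ε κ : ℝ} {k : ℕ} (hε : 0 ≤ ε) (hκ : 0 ≤ κ)
    (hw : ∀ e, 0 ≤ w e) (hd : ∀ v, dg vs w v ≤ 1) (hc : ∀ u v, u ≠ v → cw vs w u v ≤ κ)
    (hk : ∀ e, (vs e).card ≤ k) {v : V} {e f : E} (he : v ∈ vs e) (hf : v ∈ vs f) :
    Real.exp (ε * (((vs e).card : ℝ) - 1)) * Real.exp (ε * (((vs f).card : ℝ) - 1)) *
        pS vs w ε (vs e ∪ vs f) ≤
      Real.exp (-ε) * Real.exp (ε * (κ * (2 * (k : ℝ)) ^ 2)) +
        Real.exp (2 * ε * k) * ∑ u ∈ (vs e).erase v, (if u ∈ vs f then 1 else 0) := by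
  have hke : ((vs e).card : ℝ) ≤ k := by exact_mod_cast hk e
  have hkf : ((vs f).card : ℝ) ≤ k := by exact_mod_cast hk f
  by_cases h : vs e ∩ vs f = {v}
  · have h1 : ((vs e ∪ vs f).card : ℝ) = (vs e).card + (vs f).card - 1 := by
      have h2 := Finset.card_union_add_card_inter (vs e) (vs f)
      rw [h, Finset.card_singleton] at h2
      have h3 : (((vs e ∪ vs f).card + 1 : ℕ) : ℝ) = (((vs e).card + (vs f).card : ℕ) : ℝ) := by
        rw [h2]
      push_cast at h3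
      linarith
    have h4 := pS_le (vs := vs) (w := w) hε hκ hw hc (vs e ∪ vs f)
    have h5 : 0 ≤ Real.exp (2 * ε * k) * ∑ u ∈ (vs e).erase v, (if u ∈ vs f then (1 : ℝ) else 0) :=
      mul_nonneg (Real.exp_pos _).le (Finset.sum_nonneg fun u _ => by split_ifs <;> norm_num)
    have h6 : (((vs e ∪ vs f).card : ℝ)) ^ 2 ≤ (2 * (k : ℝ)) ^ 2 := by
      have h7 : (0 : ℝ) ≤ ((vs e ∪ vs f).card : ℝ) := Nat.cast_nonneg _
      have h8 : ((vs e ∪ vs f).card : ℝ) ≤ 2 * k := by rw [h1]; linarith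
      exact pow_le_pow_left₀ h7 h8 2
    calc Real.exp (ε * (((vs e).card : ℝ) - 1)) * Real.exp (ε * (((vs f).card : ℝ) - 1)) *
          pS vs w ε (vs e ∪ vs f)
        ≤ Real.exp (ε * (((vs e).card : ℝ) - 1)) * Real.exp (ε * (((vs f).card : ℝ) - 1)) *
          (Real.exp (-(ε * ((vs e ∪ vs f).card : ℝ))) *
            Real.exp (ε * (κ * ((vs e ∪ vs f).card : ℝ) ^ 2))) :=
          mul_le_mul_of_nonneg_left h4 (mul_nonneg (Real.exp_pos _).le (Real.exp_pos _).le)
      _ = Real.exp (-ε) * Real.exp (ε * (κ * ((vs e ∪ vs f).card : ℝ) ^ 2)) := by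
          rw [← mul_assoc]
          congr 1
          rw [← Real.exp_add, ← Real.exp_add, h1]
          congr 1
          ring
      _ ≤ Real.exp (-ε) * Real.exp (ε * (κ * (2 * (k : ℝ)) ^ 2)) := by
          refine mul_le_mul_of_nonneg_left (Real.exp_le_exp.2 ?_) (Real.exp_pos _).le
          exact mul_le_mul_of_nonneg_left (mul_le_mul_of_nonneg_left h6 hκ) hε
      _ ≤ _ := by linarith
  · have h1 : ∃ u ∈ (vs e).erase v, u ∈ vs f := by
      by_contra hcon
      push Not at hcon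
      apply h
      ext u
      rw [Finset.mem_inter, Finset.mem_singleton]
      constructor
      · rintro ⟨h2, h3⟩
        by_contra h4
        exact hcon u (Finset.mem_erase.2 ⟨h4, h2⟩) h3
      · rintro rfl
        exact ⟨he, hf⟩
    have h2 : (1 : ℝ) ≤ ∑ u ∈ (vs e).erase v, (if u ∈ vs f then (1 : ℝ) else 0) := by
      obtain ⟨u, hu, huf⟩ := h1
      calc (1 : ℝ) = (if u ∈ vs f then (1 : ℝ) else 0) := by rw [if_pos huf]
        _ ≤ _ := Finset.single_le_sum (f := fun u => if u ∈ vs f then (1 : ℝ) else 0)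
            (fun u _ => by positivity) hu
    have h3 := pS_le_one (ε := ε) hε hw hd (vs e ∪ vs f)
    calc Real.exp (ε * (((vs e).card : ℝ) - 1)) * Real.exp (ε * (((vs f).card : ℝ) - 1)) *
          pS vs w ε (vs e ∪ vs f)
        ≤ Real.exp (ε * (((vs e).card : ℝ) - 1)) * Real.exp (ε * (((vs f).card : ℝ) - 1)) * 1 :=
          mul_le_mul_of_nonneg_left h3 (mul_nonneg (Real.exp_pos _).le (Real.exp_pos _).le)
      _ = Real.exp (ε * (((vs e).card : ℝ) - 1) + ε * (((vs f).card : ℝ) - 1)) := by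
          rw [mul_one, Real.exp_add]
      _ ≤ Real.exp (2 * ε * k) := by
          refine Real.exp_le_exp.2 ?_
          nlinarith
      _ = Real.exp (2 * ε * k) * 1 := by rw [mul_one]
      _ ≤ Real.exp (2 * ε * k) * ∑ u ∈ (vs e).erase v, (if u ∈ vs f then (1 : ℝ) else 0) :=
          mul_le_mul_of_nonneg_left h2 (Real.exp_pos _).le
      _ ≤ _ := by
          have : 0 ≤ Real.exp (-ε) * Real.exp (ε * (κ * (2 * (k : ℝ)) ^ 2)) :=
            mul_nonneg (Real.exp_pos _).le (Real.exp_pos _).le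
          linarith

theorem Ex_sq {vs : E → Finset V} {w : E → ℝ} {ε κ : ℝ} {k : ℕ} (hε : 0 ≤ ε) (hκ : 0 ≤ κ)
    (hw : ∀ e, 0 ≤ w e) (hd : ∀ v, dg vs w v ≤ 1) (hc : ∀ u v, u ≠ v → cw vs w u v ≤ κ)
    (hk : ∀ e, (vs e).card ≤ k) (v : V) :
    Ex (qq vs w ε) (fun ω => dg vs (w1 vs w ε ω) v * dg vs (w1 vs w ε ω) v) ≤
      Real.exp (-ε) * Real.exp (ε * (κ * (2 * (k : ℝ)) ^ 2)) * (dg vs w v * dg vs w v) +
        Real.exp (2 * ε * k) * (k * κ) := by
  have h1 : (fun ω => dg vs (w1 vs w ε ω) v * dg vs (w1 vs w ε ω) v) =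
      fun ω => ∑ e with v ∈ vs e, ∑ f with v ∈ vs f, w1 vs w ε ω e * w1 vs w ε ω f := by
    funext ω
    unfold dg
    rw [Finset.sum_mul_sum]
  rw [h1, Ex_sum]
  have h2 : ∀ e ∈ Finset.univ.filter (fun e => v ∈ vs e),
      Ex (qq vs w ε) (fun ω => ∑ f with v ∈ vs f, w1 vs w ε ω e * w1 vs w ε ω f) ≤
      w e * (Real.exp (-ε) * Real.exp (ε * (κ * (2 * (k : ℝ)) ^ 2)) * dg vs w v +
        Real.exp (2 * ε * k) * (k * κ)) := by
    intro e he
    have hev : v ∈ vs e := (Finset.mem_filter.1 he).2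
    rw [Ex_sum]
    calc ∑ f with v ∈ vs f, Ex (qq vs w ε) (fun ω => w1 vs w ε ω e * w1 vs w ε ω f)
        ≤ ∑ f with v ∈ vs f, w e * w f * (Real.exp (-ε) * Real.exp (ε * (κ * (2 * (k : ℝ)) ^ 2)) +
          Real.exp (2 * ε * k) * ∑ u ∈ (vs e).erase v, (if u ∈ vs f then 1 else 0)) := by
          refine Finset.sum_le_sum fun f hf => ?_
          rw [w1_w1]
          exact mul_le_mul_of_nonneg_left (pair_le hε hκ hw hd hc hk hev
            (Finset.mem_filter.1 hf).2) (mul_nonneg (hw e) (hw f))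
      _ = w e * (Real.exp (-ε) * Real.exp (ε * (κ * (2 * (k : ℝ)) ^ 2)) * dg vs w v +
          Real.exp (2 * ε * k) * ∑ u ∈ (vs e).erase v, cw vs w v u) := by
          have h3 : ∑ u ∈ (vs e).erase v, cw vs w v u =
              ∑ f with v ∈ vs f, w f * ∑ u ∈ (vs e).erase v, (if u ∈ vs f then (1 : ℝ) else 0) := by
            unfold cw
            simp_rw [Finset.mul_sum]
            rw [Finset.sum_comm]
            refine Finset.sum_congr rfl fun u _ => ?_
            rw [Finset.sum_filter, Finset.sum_filter]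
            refine Finset.sum_congr rfl fun f _ => ?_
            by_cases h4 : v ∈ vs f <;> by_cases h5 : u ∈ vs f <;> simp [h4, h5]
          rw [h3]
          unfold dg
          rw [mul_add, Finset.mul_sum, Finset.mul_sum, Finset.mul_sum, Finset.mul_sum,
            ← Finset.sum_add_distrib]
          refine Finset.sum_congr rfl fun f _ => ?_
          ring
      _ ≤ _ := by
          refine mul_le_mul_of_nonneg_left (add_le_add le_rfl
            (mul_le_mul_of_nonneg_left ?_ (Real.exp_pos _).le)) (hw e)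
          calc ∑ u ∈ (vs e).erase v, cw vs w v u ≤ ∑ _u ∈ (vs e).erase v, κ :=
                Finset.sum_le_sum fun u hu => hc _ _ (Finset.ne_of_mem_erase hu).symm
            _ = (((vs e).erase v).card : ℝ) * κ := by rw [Finset.sum_const, nsmul_eq_mul]
            _ ≤ k * κ := by
                refine mul_le_mul_of_nonneg_right ?_ hκ
                exact_mod_cast (Finset.card_erase_le).trans (hk e)
  calc ∑ e with v ∈ vs e, Ex (qq vs w ε) (fun ω => ∑ f with v ∈ vs f, w1 vs w ε ω e * w1 vs w ε ω f)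
      ≤ ∑ e with v ∈ vs e, w e * (Real.exp (-ε) * Real.exp (ε * (κ * (2 * (k : ℝ)) ^ 2)) *
          dg vs w v + Real.exp (2 * ε * k) * (k * κ)) := Finset.sum_le_sum h2
    _ = dg vs w v * (Real.exp (-ε) * Real.exp (ε * (κ * (2 * (k : ℝ)) ^ 2)) *
          dg vs w v + Real.exp (2 * ε * k) * (k * κ)) := by
        rw [← Finset.sum_mul]
        rfl
    _ ≤ _ := by
        have h3 : 0 ≤ Real.exp (2 * ε * k) * (k * κ) :=
          mul_nonneg (Real.exp_pos _).le (mul_nonneg (Nat.cast_nonneg _) hκ)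
        have h4 := mul_le_mul_of_nonneg_right (hd v) h3
        nlinarith

/-- first absolute moment of the deviation -/
theorem Ex_abs {vs : E → Finset V} {w : E → ℝ} {ε κ s : ℝ} {k : ℕ} (hε : 0 ≤ ε) (hε1 : ε ≤ 1)
    (hκ : 0 ≤ κ) (hw : ∀ e, 0 ≤ w e) (hd : ∀ v, dg vs w v ≤ 1)
    (hc : ∀ u v, u ≠ v → cw vs w u v ≤ κ) (hk : ∀ e, (vs e).card ≤ k) (hs : 0 < s)
    (hκ1 : κ * (2 * (k : ℝ)) ^ 2 ≤ 1)
    (hκ2 : 2 * (κ * (2 * (k : ℝ)) ^ 2) + Real.exp (2 * k) * (k * κ) ≤ s ^ 2) (v : V) :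
    Ex (qq vs w ε) (fun ω => |XX vs w ε v ω|) ≤ s := by
  have h1 : Ex (qq vs w ε) (fun ω => XX vs w ε v ω ^ 2) ≤ s ^ 2 := by
    have h2 : (fun ω => XX vs w ε v ω ^ 2) = fun ω =>
        (dg vs (w1 vs w ε ω) v * dg vs (w1 vs w ε ω) v -
          2 * dg vs w v * dg vs (w1 vs w ε ω) v) +
          dg vs w v ^ 2 * ind (Sv vs {v} ω) := by
      funext ω
      unfold XX
      have h3 := ind_dg vs w ε v ω
      have h4 : ind (Sv vs {v} ω) * ind (Sv vs {v} ω) = ind (Sv vs {v} ω) := by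
        rw [ind_mul_Sv, Finset.union_self]
      calc (dg vs (w1 vs w ε ω) v - ind (Sv vs {v} ω) * dg vs w v) ^ 2
          = dg vs (w1 vs w ε ω) v * dg vs (w1 vs w ε ω) v -
            2 * dg vs w v * (ind (Sv vs {v} ω) * dg vs (w1 vs w ε ω) v) +
            dg vs w v ^ 2 * (ind (Sv vs {v} ω) * ind (Sv vs {v} ω)) := by ring
        _ = _ := by rw [h3, h4]
    rw [h2, Ex_add, Ex_sub, Ex_smul, Ex_smul]
    have h5 := Ex_sq (vs := vs) (w := w) hε hκ hw hd hc hk v
    have h6 := Ex_dg_ge (vs := vs) (w := w) hε hw v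
    have h7 : Ex (qq vs w ε) (fun ω => ind (Sv vs {v} ω)) = Real.exp (-ε) := pS_single vs w ε v
    rw [h7]
    have hd0 := dg_nonneg (vs := vs) hw v
    have hd1 := hd v
    have h8 := mul_le_mul_of_nonneg_left h6 (mul_nonneg (by norm_num : (0 : ℝ) ≤ 2) hd0)
    set x := ε * (κ * (2 * (k : ℝ)) ^ 2) with hx
    have hx0 : 0 ≤ x := mul_nonneg hε (mul_nonneg hκ (sq_nonneg _))
    have hx1 : x ≤ κ * (2 * (k : ℝ)) ^ 2 := by
      have := mul_le_mul_of_nonneg_right hε1 (mul_nonneg hκ (sq_nonneg (2 * (k : ℝ))))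
      rwa [one_mul] at this
    have h9 : Real.exp x - 1 ≤ 2 * x := by
      have := Real.abs_exp_sub_one_le (x := x) (by rw [abs_of_nonneg hx0]; linarith)
      rw [abs_of_nonneg hx0] at this
      exact (le_abs_self _).trans this
    have h10 : Real.exp (-ε) ≤ 1 := Real.exp_le_one_iff.2 (by linarith)
    have h11 : Real.exp (2 * ε * k) ≤ Real.exp (2 * k) := by
      refine Real.exp_le_exp.2 ?_
      have : (0 : ℝ) ≤ k := Nat.cast_nonneg _
      nlinarith
    have h12 : Real.exp (2 * ε * k) * (k * κ) ≤ Real.exp (2 * k) * (k * κ) :=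
      mul_le_mul_of_nonneg_right h11 (mul_nonneg (Nat.cast_nonneg _) hκ)
    have h13 : Real.exp (-ε) * (dg vs w v * dg vs w v) * (Real.exp x - 1) ≤ 2 * x := by
      have h14 : Real.exp (-ε) * (dg vs w v * dg vs w v) ≤ 1 := by
        have h15 : dg vs w v * dg vs w v ≤ 1 := by nlinarith
        have h16 : 0 ≤ dg vs w v * dg vs w v := mul_nonneg hd0 hd0
        have := mul_le_mul h10 h15 h16 (by norm_num)
        linarith
      have h17 : 0 ≤ Real.exp x - 1 := by
        have := Real.one_le_exp hx0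
        linarith
      calc Real.exp (-ε) * (dg vs w v * dg vs w v) * (Real.exp x - 1)
          ≤ 1 * (Real.exp x - 1) := mul_le_mul_of_nonneg_right h14 h17
        _ ≤ 2 * x := by linarith
    have h18 : Real.exp (-ε) * Real.exp x * (dg vs w v * dg vs w v) + Real.exp (2 * ε * k) * (k * κ)
        - 2 * dg vs w v * (Real.exp (-ε) * dg vs w v) + dg vs w v ^ 2 * Real.exp (-ε) =
        Real.exp (-ε) * (dg vs w v * dg vs w v) * (Real.exp x - 1) +
          Real.exp (2 * ε * k) * (k * κ) := by ring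
    linarith
  have h3 : Ex (qq vs w ε) (fun ω => |XX vs w ε v ω|) ≤
      Ex (qq vs w ε) (fun ω => (1 / (2 * s)) * XX vs w ε v ω ^ 2 + s / 2) := by
    refine Ex_mono (qq_nonneg vs w ε) (qq_le_one hε hw hd) fun ω => ?_
    set y := |XX vs w ε v ω| with hy
    have hy2 : XX vs w ε v ω ^ 2 = y ^ 2 := (sq_abs _).symm
    rw [hy2]
    have h4 : 0 ≤ (y - s) ^ 2 := sq_nonneg _
    have h5 : y = (1 / (2 * s)) * (2 * s * y) := by field_simp
    have h6 : (1 / (2 * s)) * y ^ 2 + s / 2 = (1 / (2 * s)) * (y ^ 2 + s ^ 2) := by field_simp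
    rw [h6]
    calc y = (1 / (2 * s)) * (2 * s * y) := h5
      _ ≤ _ := mul_le_mul_of_nonneg_left (by nlinarith) (by positivity)
  refine h3.trans ?_
  rw [Ex_add, Ex_smul, Ex_const]
  calc (1 / (2 * s)) * Ex (qq vs w ε) (fun ω => XX vs w ε v ω ^ 2) + s / 2
      ≤ (1 / (2 * s)) * s ^ 2 + s / 2 := by
        have := mul_le_mul_of_nonneg_left h1 (by positivity : (0 : ℝ) ≤ 1 / (2 * s))
        linarith
    _ = s := by field_simp; ring

end NB
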