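import Mathlib

/-!
# NB/Prob: finite product probability

Independent switches `j : J`; switch `j` is off (`false`) with probability `q j`.
-/

set_option autoImplicit false
set_option linter.unusedSectionVars false

namespace NB

open Finset

variable {J : Type} [Fintype J] [DecidableEq J]

/-- weight of an outcome -/
noncomputable def wt (q : J → ℝ) (ω : J → Bool) : ℝ := ∏ j, (if ω j = true then 1 - q j else q j)

/-- expectation -/
noncomputable def Ex (q : J → ℝ) (f : (J → Bool) → ℝ) : ℝ := ∑ ω, wt q ω * f ω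

theorem Ex_prod (q : J → ℝ) (h : J → Bool → ℝ) :
    Ex q (fun ω => ∏ j, h j (ω j)) = ∏ j, ((1 - q j) * h j true + q j * h j false) := by
  unfold Ex wt
  have h1 : ∀ j, ((1 - q j) * h j true + q j * h j false) =
      ∑ b ∈ (Finset.univ : Finset Bool), (if b = true then 1 - q j else q j) * h j b := by
    intro j
    simp
  simp_rw [h1]
  rw [Finset.prod_univ_sum, Fintype.piFinset_univ]
  refine Finset.sum_congr rfl fun ω _ => ?_
  rw [← Finset.prod_mul_distrib]

theorem Ex_add (q : J → ℝ) (f g : (J → Bool) → ℝ) :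
    Ex q (fun ω => f ω + g ω) = Ex q f + Ex q g := by
  unfold Ex
  rw [← Finset.sum_add_distrib]
  exact Finset.sum_congr rfl fun ω _ => by ring

theorem Ex_sub (q : J → ℝ) (f g : (J → Bool) → ℝ) :
    Ex q (fun ω => f ω - g ω) = Ex q f - Ex q g := by
  unfold Ex
  rw [← Finset.sum_sub_distrib]
  exact Finset.sum_congr rfl fun ω _ => by ring

theorem Ex_smul (q : J → ℝ) (c : ℝ) (f : (J → Bool) → ℝ) :
    Ex q (fun ω => c * f ω) = c * Ex q f := by
  unfold Ex
  rw [Finset.mul_sum]
  exact Finset.sum_congr rfl fun ω _ => by ring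

theorem Ex_sum {A : Type} (q : J → ℝ) (s : Finset A) (f : A → (J → Bool) → ℝ) :
    Ex q (fun ω => ∑ a ∈ s, f a ω) = ∑ a ∈ s, Ex q (f a) := by
  unfold Ex
  rw [Finset.sum_comm]
  exact Finset.sum_congr rfl fun ω _ => by rw [Finset.mul_sum]

theorem Ex_const (q : J → ℝ) (c : ℝ) : Ex q (fun _ => c) = c := by
  have h := Ex_prod q (fun _ _ => (1 : ℝ))
  simp only [Finset.prod_const_one, mul_one, sub_add_cancel] at h
  have h2 := Ex_smul q c (fun _ => 1)
  rw [h] at h2
  simpa using h2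

theorem wt_nonneg {q : J → ℝ} (h0 : ∀ j, 0 ≤ q j) (h1 : ∀ j, q j ≤ 1) (ω : J → Bool) :
    0 ≤ wt q ω := by
  unfold wt
  refine Finset.prod_nonneg fun j _ => ?_
  split_ifs
  · linarith [h1 j]
  · exact h0 j

theorem Ex_mono {q : J → ℝ} (h0 : ∀ j, 0 ≤ q j) (h1 : ∀ j, q j ≤ 1) {f g : (J → Bool) → ℝ}
    (h : ∀ ω, f ω ≤ g ω) : Ex q f ≤ Ex q g := by
  unfold Ex
  exact Finset.sum_le_sum fun ω _ => mul_le_mul_of_nonneg_left (h ω) (wt_nonneg h0 h1 ω)

/-- some outcome is at most the expectation -/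
theorem exists_le_Ex {q : J → ℝ} (h0 : ∀ j, 0 ≤ q j) (h1 : ∀ j, q j ≤ 1)
    (f : (J → Bool) → ℝ) {c : ℝ} (hc : Ex q f ≤ c) : ∃ ω, f ω ≤ c := by
  by_contra hcon
  push Not at hcon
  have h2 : Ex q (fun ω => f ω - c) ≤ 0 := by
    rw [Ex_sub, Ex_const]
    linarith
  have h3 : ∀ ω ∈ (Finset.univ : Finset (J → Bool)), 0 ≤ wt q ω * (f ω - c) := fun ω _ =>
    mul_nonneg (wt_nonneg h0 h1 ω) (by linarith [hcon ω])
  have h4 : ∑ ω, wt q ω * (f ω - c) = 0 := le_antisymm h2 (Finset.sum_nonneg h3)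
  have h5 := (Finset.sum_eq_zero_iff_of_nonneg h3).1 h4
  have h6 : ∀ ω, wt q ω = 0 := by
    intro ω
    rcases mul_eq_zero.1 (h5 ω (Finset.mem_univ _)) with h | h
    · exact h
    · linarith [hcon ω]
  have h7 := Ex_const q 1
  unfold Ex at h7
  simp [h6] at h7

/-- indicator -/
noncomputable def ind (P : Prop) : ℝ := by
  classical exact if P then 1 else 0

theorem ind_pos {P : Prop} (h : P) : ind P = 1 := by
  unfold ind
  rw [if_pos h]

theorem ind_neg {P : Prop} (h : ¬ P) : ind P = 0 := by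
  unfold ind
  rw [if_neg h]

theorem ind_nonneg (P : Prop) : 0 ≤ ind P := by
  by_cases h : P
  · rw [ind_pos h]; norm_num
  · rw [ind_neg h]

theorem ind_le_one (P : Prop) : ind P ≤ 1 := by
  by_cases h : P
  · rw [ind_pos h]
  · rw [ind_neg h]; norm_num

theorem ind_congr {P Q : Prop} (h : P ↔ Q) : ind P = ind Q := by
  by_cases hP : P
  · rw [ind_pos hP, ind_pos (h.1 hP)]
  · rw [ind_neg hP, ind_neg (fun hQ => hP (h.2 hQ))]

/-- all switches of `B` are off -/
theorem Ex_off (q : J → ℝ) (B : Finset J) :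
    Ex q (fun ω => ind (∀ j ∈ B, ω j = false)) = ∏ j ∈ B, q j := by
  have e := Ex_prod q (fun (j : J) (b : Bool) => if j ∈ B ∧ b = true then (0 : ℝ) else 1)
  have h1 : (fun ω : J → Bool => ind (∀ j ∈ B, ω j = false)) =
      fun ω => ∏ j, (if j ∈ B ∧ ω j = true then (0 : ℝ) else 1) := by
    funext ω
    by_cases h : ∀ j ∈ B, ω j = false
    · rw [ind_pos h, Finset.prod_eq_one]
      intro j _
      rw [if_neg]
      rintro ⟨hj, hb⟩
      rw [h j hj] at hb
      exact Bool.false_ne_true hb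
    · rw [ind_neg h]
      push Not at h
      obtain ⟨j, hj, hb⟩ := h
      rw [Finset.prod_eq_zero (Finset.mem_univ j)]
      rw [if_pos ⟨hj, by simpa using hb⟩]
  rw [h1]
  refine e.trans ?_
  have h2 : ∏ j, ((1 - q j) * (if j ∈ B ∧ true = true then (0 : ℝ) else 1) +
      q j * (if j ∈ B ∧ false = true then (0 : ℝ) else 1)) = ∏ j, (if j ∈ B then q j else 1) :=
    Finset.prod_congr rfl fun j _ => by by_cases hj : j ∈ B <;> simp [hj]
  refine h2.trans ?_
  rw [Finset.prod_ite_mem, Finset.univ_inter]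

/-- the switch `a` is on, all switches of `B` are off -/
theorem Ex_on_off (q : J → ℝ) (a : J) (B : Finset J) (ha : a ∉ B) :
    Ex q (fun ω => ind (ω a = true ∧ ∀ j ∈ B, ω j = false)) = (1 - q a) * ∏ j ∈ B, q j := by
  have h1 : (fun ω : J → Bool => ind (ω a = true ∧ ∀ j ∈ B, ω j = false)) =
      fun ω => ind (∀ j ∈ B, ω j = false) - ind (∀ j ∈ insert a B, ω j = false) := by
    funext ω
    by_cases h : ∀ j ∈ B, ω j = false
    · rw [ind_pos h]
      by_cases h' : ω a = true
      · rw [ind_pos ⟨h', h⟩, ind_neg, sub_zero]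
        intro h3
        rw [h3 a (Finset.mem_insert_self _ _)] at h'
        exact Bool.false_ne_true h'
      · rw [ind_neg (fun h3 => h' h3.1), ind_pos, sub_self]
        intro j hj
        rcases Finset.mem_insert.1 hj with rfl | hj
        · simpa using h'
        · exact h j hj
    · rw [ind_neg (fun h3 => h h3.2), ind_neg h, ind_neg, sub_self]
      exact fun h3 => h fun j hj => h3 j (Finset.mem_insert_of_mem hj)
  rw [h1, Ex_sub, Ex_off, Ex_off, Finset.prod_insert ha]
  ring

end NB
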